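import Pool.Agent.N658.SP.Oct

/-!
# Project OCT: the `ℓ₁`-sum contains no `ℓ₁(Γ)` with `Γ` uncountable (helper195)
-/

set_option autoImplicit false

namespace Pool.Agent.N195.OCT

open Cardinal Pool.Agent.N658.SP.Oct

universe u

theorem C0_bdd {I : Type u} {y : I → ℝ} (hy : y ∈ C0 I) : ∃ C : ℝ, 0 ≤ C ∧ ∀ a, |y a| ≤ C := by
  have h1 : {a | (1 : ℝ) ≤ |y a|}.Finite := hy 1 one_pos
  obtain ⟨C, hC⟩ := (h1.image fun a => |y a|).bddAbove
  refine ⟨max 1 C, by positivity, fun a => ?_⟩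
  rcases le_or_gt 1 (|y a|) with h | h
  · exact (hC ⟨a, h, rfl⟩).trans (le_max_right _ _)
  · exact h.le.trans (le_max_left _ _)

section lp1

variable {E : ℕ → Type u} [∀ n, NormedAddCommGroup (E n)]

theorem hasSum_norm1 {α : Type*} {F : α → Type*} [∀ n, NormedAddCommGroup (F n)] (x : lp F 1) :
    HasSum (fun n => ‖x n‖) ‖x‖ := by
  have h := lp.hasSum_norm (p := 1) (by simp) x
  simpa using h

theorem hasSum_norm2 (x : lp E 1) : HasSum (fun n => ‖x n‖) ‖x‖ := by
  have h := lp.hasSum_norm (p := 1) (by simp) x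
  simpa using h

/-- the norm of the tail -/
noncomputable def tail (N : ℕ) (x : lp E 1) : ℝ := ∑' n, ‖x (n + N)‖

theorem tail_summable (N : ℕ) (x : lp E 1) : Summable fun n => ‖x (n + N)‖ :=
  (summable_nat_add_iff (f := fun n => ‖x n‖) N).2 (hasSum_norm2 x).summable

theorem sum_add_tail (N : ℕ) (x : lp E 1) : ∑ n ∈ Finset.range N, ‖x n‖ + tail N x = ‖x‖ := by
  have h := Summable.sum_add_tsum_nat_add N (hasSum_norm2 x).summable
  rw [(hasSum_norm2 x).tsum_eq] at h
  exact h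

theorem tail_zero (N : ℕ) : tail N (0 : lp E 1) = 0 := by
  unfold tail
  have h : ∀ n, ‖(0 : lp E 1) (n + N)‖ = 0 := by
    intro n
    rw [lp.coeFn_zero, Pi.zero_apply, norm_zero]
  simp_rw [h]
  exact tsum_zero

theorem tail_add (N : ℕ) (x y : lp E 1) : tail N (x + y) ≤ tail N x + tail N y := by
  unfold tail
  rw [← (tail_summable N x).tsum_add (tail_summable N y)]
  refine (tail_summable N (x + y)).tsum_le_tsum (fun n => ?_)
    ((tail_summable N x).add (tail_summable N y))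
  rw [lp.coeFn_add, Pi.add_apply]
  exact norm_add_le _ _

theorem tail_sub (N : ℕ) (x y : lp E 1) : tail N (x - y) ≤ tail N x + tail N y := by
  unfold tail
  rw [← (tail_summable N x).tsum_add (tail_summable N y)]
  refine (tail_summable N (x - y)).tsum_le_tsum (fun n => ?_)
    ((tail_summable N x).add (tail_summable N y))
  rw [lp.coeFn_sub, Pi.sub_apply]
  exact norm_sub_le _ _

theorem tail_sum {ι : Type} (N : ℕ) (S : Finset ι) (x : ι → lp E 1) :
    tail N (∑ i ∈ S, x i) ≤ ∑ i ∈ S, tail N (x i) := by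
  classical
  induction S using Finset.induction_on with
  | empty => rw [Finset.sum_empty, Finset.sum_empty, tail_zero]
  | insert a S ha ih =>
    rw [Finset.sum_insert ha, Finset.sum_insert ha]
    exact (tail_add N _ _).trans (by linarith)

theorem exists_tail (x : lp E 1) {ε : ℝ} (hε : 0 < ε) : ∃ N, tail N x ≤ ε := by
  have h := (hasSum_norm2 x).tendsto_sum_nat
  obtain ⟨N, hN⟩ := (h.eventually (lt_mem_nhds (show ‖x‖ - ε < ‖x‖ by linarith))).exists
  refine ⟨N, ?_⟩
  have := sum_add_tail N x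
  linarith

end lp1

section e1

variable {Γ : Type u}

open Classical in
/-- the unit vectors -/
noncomputable def e1 (g : Γ) : lp (fun _ : Γ => ℝ) 1 := lp.single (E := fun _ : Γ => ℝ) 1 g (1 : ℝ)

theorem norm_e1 (g : Γ) : ‖e1 g‖ = 1 := by
  classical
  unfold e1
  rw [lp.norm_single (by norm_num), norm_one]

open Classical in
theorem e1_apply (g g' : Γ) : e1 g g' = if g' = g then (1 : ℝ) else 0 := by
  unfold e1
  rw [lp.single_apply, Pi.single_apply]

open Classical in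
theorem sum_e1_apply {m : ℕ} (p q : Fin m → Γ) (g : Γ) :
    (∑ i, (e1 (p i) - e1 (q i)) : lp (fun _ : Γ => ℝ) 1) g =
      ∑ i, ((if g = p i then (1 : ℝ) else 0) - if g = q i then (1 : ℝ) else 0) := by
  rw [lp.coeFn_sum, Finset.sum_apply]
  refine Finset.sum_congr rfl fun i _ => ?_
  rw [lp.coeFn_sub, Pi.sub_apply, e1_apply, e1_apply]

theorem norm_sum_e1 {m : ℕ} {p q : Fin m → Γ} (hp : Function.Injective p)
    (hq : Function.Injective q) (hpq : ∀ i k, p i ≠ q k) :
    (2 * m : ℝ) ≤ ‖(∑ i, (e1 (p i) - e1 (q i)) : lp (fun _ : Γ => ℝ) 1)‖ := by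
  classical
  generalize hw : (∑ i, (e1 (p i) - e1 (q i)) : lp (fun _ : Γ => ℝ) 1) = w
  have hwval : ∀ g, w g = ∑ i, ((if g = p i then (1 : ℝ) else 0) - if g = q i then (1 : ℝ) else 0) := by
    intro g
    rw [← hw, sum_e1_apply]
  have hwp : ∀ k, w (p k) = 1 := by
    intro k
    rw [hwval, Finset.sum_eq_single k]
    · rw [if_pos rfl, if_neg (hpq k k), sub_zero]
    · intro i _ hik
      rw [if_neg (fun h' => hik (hp h').symm), if_neg (hpq k i), sub_zero]
    · intro h'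
      exact absurd (Finset.mem_univ k) h'
  have hwq : ∀ k, w (q k) = -1 := by
    intro k
    rw [hwval, Finset.sum_eq_single k]
    · rw [if_pos rfl, if_neg (fun h' => hpq k k h'.symm), zero_sub]
    · intro i _ hik
      rw [if_neg (fun h' => hpq i k h'.symm), if_neg (fun h' => hik (hq h').symm), sub_zero]
    · intro h'
      exact absurd (Finset.mem_univ k) h'
  have hs : HasSum (fun g : Γ => ‖w g‖) ‖w‖ := hasSum_norm1 (F := fun _ : Γ => ℝ) w
  have h1 : ∑ g ∈ Finset.univ.image p ∪ Finset.univ.image q, ‖w g‖ ≤ ‖w‖ :=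
    sum_le_hasSum _ (fun g _ => norm_nonneg _) hs
  have hdis : Disjoint (Finset.univ.image p) (Finset.univ.image q) := by
    rw [Finset.disjoint_left]
    intro x hx hx'
    obtain ⟨i, -, rfl⟩ := Finset.mem_image.1 hx
    obtain ⟨k, -, hk⟩ := Finset.mem_image.1 hx'
    exact hpq i k hk.symm
  rw [Finset.sum_union hdis, Finset.sum_image hp.injOn, Finset.sum_image hq.injOn] at h1
  have h2 : ∑ x : Fin m, ‖w (p x)‖ = m := by
    simp_rw [hwp, norm_one]
    simp
  have h3 : ∑ x : Fin m, ‖w (q x)‖ = m := by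
    simp_rw [hwq, norm_neg, norm_one]
    simp
  rw [h2, h3] at h1
  linarith

end e1

section lev

variable {I : Type u} {E : ℕ → Type u} [∀ n, NormedAddCommGroup (E n)] [∀ n, NormedSpace ℝ (E n)]
  (φ : ∀ n, E n ≃ₗ[ℝ] (C0 I))

theorem phi_sum {m : ℕ} (x y : Fin m → lp E 1) (n : ℕ) (a : I) :
    (φ n ((∑ i, (x i - y i) : lp E 1) n) : I → ℝ) a =
      ∑ i, ((φ n (x i n) : I → ℝ) a - (φ n (y i n) : I → ℝ) a) := by
  rw [lp.coeFn_sum, Finset.sum_apply, map_sum, Submodule.coe_sum, Finset.sum_apply]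
  refine Finset.sum_congr rfl fun i _ => ?_
  rw [lp.coeFn_sub, Pi.sub_apply, map_sub]
  rfl

end lev

/-- **the `ℓ₁`-sum of the levels contains no `ℓ₁(Γ)` with `Γ` uncountable** -/
theorem stmNoL1 (h : StmNrm.{u}) (h0 : StmC0.{u}) : StmNoL1.{u} := by
  intro I _ E _ _ φ hφ Γ hΓ
  rintro ⟨T, c, hc, hT⟩
  classical
  set K : ℝ := ‖T‖ with hK
  have hK0 : 0 ≤ K := norm_nonneg _
  have hTe : ∀ g, ‖T (e1 g)‖ ≤ K := by
    intro g
    have := T.le_opNorm (e1 g)
    rwa [norm_e1, mul_one] at this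
  -- the weights
  have hr0 : ∀ n : ℕ, 0 ≤ rr n := by
    intro n
    unfold rr
    have h1 : (0 : ℝ) < (n : ℝ) + 2 := by positivity
    have h2 : 1 / ((n : ℝ) + 2) ≤ 1 := by
      rw [div_le_one h1]
      have : (0 : ℝ) ≤ n := Nat.cast_nonneg n
      linarith
    linarith
  have hr1 : ∀ n : ℕ, rr n < 1 := by
    intro n
    unfold rr
    have h1 : (0 : ℝ) < 1 / ((n : ℝ) + 2) := by positivity
    linarith
  have hr2 : ∀ n : ℕ, 1 - rr n = 1 / ((n : ℝ) + 2) := by
    intro n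
    unfold rr
    ring
  -- the tails
  choose Ng hNg using fun g => exists_tail (T (e1 g)) (show 0 < c / 4 by positivity)
  obtain ⟨N, hN⟩ : ∃ N, {g | Ng g = N}.Infinite := by
    by_contra hcon
    push Not at hcon
    have h1 : (⋃ N, {g | Ng g = N}).Countable :=
      Set.countable_iUnion fun N => (hcon N).countable
    have h2 : (⋃ N, {g | Ng g = N}) = (Set.univ : Set Γ) := by
      ext g
      simp
    rw [h2, Set.countable_univ_iff] at h1
    have h3 := Cardinal.mk_le_aleph0_iff.2 h1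
    exact absurd hΓ (not_lt.2 h3)
  -- the functions
  let t : Γ → (Fin N × I) → ℝ := fun g j => (φ j.1 ((T (e1 g)) j.1) : I → ℝ) j.2
  have ht : ∀ g j, |t g j| ≤ K := by
    intro g j
    obtain ⟨C, hC0, hC⟩ := C0_bdd (φ j.1 ((T (e1 g)) j.1)).2
    have h1 := (((h I (rr j.1) (hr0 _) (hr1 _)).1 _ C hC hC0).2.2.2) j.2
    rw [← hφ] at h1
    exact h1.trans ((lp.norm_apply_le_norm (by norm_num) _ _).trans (hTe g))
  have htf : ∀ g, ∀ d : ℝ, 0 < d → {j | d ≤ |t g j|}.Finite := by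
    intro g d hd
    have h1 : (⋃ n : Fin N, (fun a : I => ((n, a) : Fin N × I)) ''
        {a | d ≤ |(φ n ((T (e1 g)) n) : I → ℝ) a|}).Finite :=
      Set.finite_iUnion fun n => Set.Finite.image _ ((φ n ((T (e1 g)) n)).2 d hd)
    refine h1.subset ?_
    rintro ⟨n, a⟩ ha
    rw [Set.mem_iUnion]
    exact ⟨n, a, ha, rfl⟩
  -- the choice of `m` and `d`
  set M : ℝ := (N : ℝ) * ((N : ℝ) + 2) with hM
  have hM0 : 0 ≤ M := by positivity
  obtain ⟨m, hm⟩ := exists_nat_gt (2 * K * M / c)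
  set d : ℝ := c / (2 * M + 1) with hd
  have hd0 : 0 < d := by positivity
  have hMd : M * d ≤ c / 2 := by
    rw [hd, ← mul_div_assoc, div_le_iff₀ (by positivity)]
    nlinarith
  obtain ⟨p, q, hG, hp, hq, hpq, hsum⟩ := h0 Γ (Fin N × I) t K {g | Ng g = N} hN ht htf m d hd0
  -- the vector
  have hwnorm := norm_sum_e1 hp hq hpq
  have hTw : T (∑ i, (e1 (p i) - e1 (q i))) = ∑ i, (T (e1 (p i)) - T (e1 (q i))) := by
    rw [map_sum]
    exact Finset.sum_congr rfl fun i _ => map_sub T _ _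
  have h2 := hT (∑ i, (e1 (p i) - e1 (q i)))
  rw [hTw] at h2
  generalize (∑ i, (e1 (p i) - e1 (q i)) : lp (fun _ : Γ => ℝ) 1) = w at hwnorm h2
  -- the levels below `N`
  have hlev : ∀ n : ℕ, n < N → ‖(∑ i, (T (e1 (p i)) - T (e1 (q i))) : lp E 1) n‖ ≤
      (2 * K + m * d) * ((N : ℝ) + 2) := by
    intro n hn
    have hb : ∀ a, |(φ n ((∑ i, (T (e1 (p i)) - T (e1 (q i))) : lp E 1) n) : I → ℝ) a| ≤
        2 * K + m * d := by
      intro a
      rw [phi_sum]
      exact hsum (⟨n, hn⟩, a)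
    have hC0 : 0 ≤ 2 * K + m * d := by positivity
    have h1 := ((h I (rr n) (hr0 n) (hr1 n)).1 _ _ hb hC0).2.1
    rw [← hφ] at h1
    refine h1.trans ?_
    rw [hr2, div_div_eq_mul_div, div_one]
    apply mul_le_mul_of_nonneg_left _ hC0
    have : (n : ℝ) ≤ N := by exact_mod_cast hn.le
    linarith
  have htail : tail N (∑ i, (T (e1 (p i)) - T (e1 (q i)))) ≤ m * (c / 2) := by
    refine (tail_sum N _ _).trans ?_
    have h1 : ∀ i ∈ (Finset.univ : Finset (Fin m)), tail N (T (e1 (p i)) - T (e1 (q i))) ≤ c / 2 := by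
      intro i _
      have h2 := hNg (p i)
      have h3 := hNg (q i)
      rw [(hG i).1] at h2
      rw [(hG i).2] at h3
      have := tail_sub N (T (e1 (p i))) (T (e1 (q i)))
      linarith
    refine (Finset.sum_le_sum h1).trans ?_
    rw [Finset.sum_const, Finset.card_univ, Fintype.card_fin, nsmul_eq_mul]
  have hhead : ∑ n ∈ Finset.range N, ‖(∑ i, (T (e1 (p i)) - T (e1 (q i))) : lp E 1) n‖ ≤
      M * (2 * K + m * d) := by
    refine (Finset.sum_le_sum fun n hn => hlev n (Finset.mem_range.1 hn)).trans ?_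
    rw [Finset.sum_const, Finset.card_range, nsmul_eq_mul, hM]
    apply le_of_eq
    ring
  have h1 := sum_add_tail N (∑ i, (T (e1 (p i)) - T (e1 (q i))))
  have h3 : c * (2 * m) ≤ c * ‖w‖ := mul_le_mul_of_nonneg_left hwnorm hc.le
  have hm0 : (0 : ℝ) ≤ m := Nat.cast_nonneg m
  have h4 : (m : ℝ) * (M * d) ≤ m * (c / 2) := mul_le_mul_of_nonneg_left hMd hm0
  have h5 : 2 * K * M < c * m := by
    rw [div_lt_iff₀ hc] at hm
    linarith
  nlinarith

end Pool.Agent.N195.OCT
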